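import Pool.Agent.H78.GX.H78.GS.TF3

/-!
# Board gs3_modules, row FFAE: the sums of the phases along the edge of a prime number
-/

set_option autoImplicit false

open Finset Pool.Agent.H6.N4D Pool.Agent.H78.GX.H6.N4D Pool.Agent.H78.GX Pool.Agent.H78.GX.H78.GS

namespace Pool.Agent.H78.GX.H35.G3

/-- a fraction with bounded denominator multiplied by a prime number -/
theorem int_frac {b b₁ p a a' a₁ : ℕ} (hb : 1 ≤ b) (hb₁ : 1 ≤ b₁) (hp : Nat.Coprime b p)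
    (hp₁ : Nat.Coprime b₁ p) (hmod : p * a ≡ a' [MOD b]) {k : ℤ}
    (h : ((p * a₁ : ℕ) : ℝ) / b₁ - (a' : ℝ) / b = k) : ∃ k' : ℤ, (a₁ : ℝ) / b₁ - (a : ℝ) / b = k' := by
  obtain ⟨m, hm⟩ := Nat.modEq_iff_dvd.1 hmod
  have hbR : (b : ℝ) ≠ 0 := by
    have : (1 : ℝ) ≤ b := by exact_mod_cast hb
    linarith
  have hbR₁ : (b₁ : ℝ) ≠ 0 := by
    have : (1 : ℝ) ≤ b₁ := by exact_mod_cast hb₁
    linarith
  have h1 : (p : ℝ) * a₁ * b - a' * b₁ = k * (b * b₁) := by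
    rw [← h]
    push_cast
    field_simp
  have h2 : (p : ℤ) * a₁ * b - a' * b₁ = k * (b * b₁) := by exact_mod_cast h1
  have h3 : (a' : ℤ) = p * a + b * m := by
    have : ((p * a : ℕ) : ℤ) = p * a := by push_cast; rfl
    rw [this] at hm
    linarith
  have h4 : (p : ℤ) * (a₁ * b - a * b₁) = (b * b₁) * (k + m) := by
    rw [h3] at h2
    linear_combination h2
  have hc : IsCoprime ((b : ℤ) * b₁) (p : ℤ) :=
    IsCoprime.mul_left (Nat.isCoprime_iff_coprime.2 hp) (Nat.isCoprime_iff_coprime.2 hp₁)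
  obtain ⟨k', hk'⟩ := hc.dvd_of_dvd_mul_left ⟨k + m, h4⟩
  refine ⟨k', ?_⟩
  have h5 : (a₁ : ℝ) * b - a * b₁ = b * b₁ * k' := by exact_mod_cast hk'
  field_simp
  linarith

theorem FA_one {S : Par} {θ φ : ℤ → ℕ → ℝ} {F : ℤ → Finset ℕ} {T : ℝ} {b a : ℕ} {t : ℤ} {j : ℕ}
    (hj : j ∈ F t) (hn : nd (fh S θ T t j - (a : ℝ) / b) ≤ 1 / (4 * (S.rho * S.x t)))
    (hu : ∀ i ∈ F t, nd (fh S θ T t i - (a : ℝ) / b) ≤ 1 / (4 * (S.rho * S.x t)) → i = j) :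
    FA S θ φ F T b a t = ee (ps S φ T b a t j) := by
  unfold FA
  rw [Finset.sum_eq_single j]
  · rfl
  · intro i hi hne
    exact absurd (hu i (mem_filter.1 hi).1 (mem_filter.1 hi).2) hne
  · intro h
    exact absurd (mem_filter.2 ⟨hj, hn⟩) h

theorem FA_zero {S : Par} {θ φ : ℤ → ℕ → ℝ} {F : ℤ → Finset ℕ} {T : ℝ} {b a : ℕ} {t : ℤ}
    (h : ∀ i ∈ F t, ¬ nd (fh S θ T t i - (a : ℝ) / b) ≤ 1 / (4 * (S.rho * S.x t))) :
    FA S θ φ F T b a t = 0 := by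
  unfold FA
  exact Finset.sum_eq_zero fun j hj => absurd (mem_filter.1 hj).2 (h j (mem_filter.1 hj).1)

/-- at most one sheet lies at a fraction -/
theorem uniq {S : Par} {θ : ℤ → ℕ → ℝ} {F : ℤ → Finset ℕ} {T : ℝ} {b a : ℕ} {t : ℤ}
    (hSep : Sep S θ F) (ht : t ∈ S.I) (hx : 0 < S.rho * S.x t) {i j : ℕ} (hi : i ∈ F t)
    (hj : j ∈ F t) (hni : nd (fh S θ T t i - (a : ℝ) / b) ≤ 1 / (4 * (S.rho * S.x t)))
    (hnj : nd (fh S θ T t j - (a : ℝ) / b) ≤ 1 / (4 * (S.rho * S.x t))) : i = j := by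
  by_contra hne
  have h1 := hSep t ht i hi j hj hne
  have h2 : nd (θ t i - θ t j) ≤ 1 / (4 * (S.rho * S.x t)) + 1 / (4 * (S.rho * S.x t)) := by
    have h3 := nd_tri (fh S θ T t i) ((a : ℝ) / b) (fh S θ T t j)
    have h4 : fh S θ T t i - fh S θ T t j = θ t i - θ t j := by
      unfold fh
      ring
    rw [h4, nd_sub_comm ((a : ℝ) / b)] at h3
    linarith
  have h5 : 1 / (4 * (S.rho * S.x t)) = 1 / (S.rho * S.x t) / 4 := by
    field_simp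
  have h6 : 0 < 1 / (S.rho * S.x t) := by positivity
  rw [h5] at h2
  linarith

theorem pf_FAE (hRAS : T_RAS) (hPHE : T_PHE) (hLCE : T_LCE) (hSIZ : T_SIZ) : T_FAE := by
  intro K b₀ ζ hK hζ
  obtain ⟨X₁, h1⟩ := hSIZ
  obtain ⟨X₂, h2⟩ := hPHE K b₀ (ζ / 8) hK (by positivity)
  obtain ⟨X₃, h3⟩ := hLCE K hK
  obtain ⟨X₄, h4⟩ := LL_large (4 * (b₀ : ℝ) ^ 2 + 1)
  refine ⟨max (max X₁ X₂) (max X₃ X₄), ?_⟩
  intro S e₀ e₁ ν T θ φ F p b a a' t hOk hSK hX he0 heζ he032 he1 he132 hν hν1 hT ht ht' hp hSep hb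
    hbb0 hmod hBij hFr
  have hX₁ : X₁ ≤ S.X := le_trans (le_trans (le_max_left _ _) (le_max_left _ _)) hX
  have hX₂ : X₂ ≤ S.X := le_trans (le_trans (le_max_right _ _) (le_max_left _ _)) hX
  have hX₃ : X₃ ≤ S.X := le_trans (le_trans (le_max_left _ _) (le_max_right _ _)) hX
  have hX₄ : X₄ ≤ S.X := le_trans (le_trans (le_max_right _ _) (le_max_right _ _)) hX
  obtain ⟨-, hP100, -, -, -, -, -, -, hI, -, -, -, -⟩ := h1 S hOk hX₁
  have hPL : 4 * (b₀ : ℝ) ^ 2 + 2 ≤ S.P := by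
    have e1 : 4 * (b₀ : ℝ) ^ 2 + 1 ≤ S.L := h4 S.X hX₄
    have e2 := Real.add_one_le_exp S.L
    have e3 : Real.exp S.L = S.P := rfl
    linarith
  have hb₀1 : (1 : ℝ) ≤ b₀ := by exact_mod_cast hb.trans hbb0
  have hb₀s : (b₀ : ℝ) ≤ (b₀ : ℝ) ^ 2 := by nlinarith
  -- the size of `rho x`
  have hρ : ∀ s ∈ S.I, 4 * (b₀ : ℝ) ^ 2 + 2 ≤ S.rho * S.x s := by
    intro s hs
    have e1 := (hI s hs).1
    have e2 : S.P ≤ S.P ^ (100 * S.K) := by
      refine le_self_pow₀ (by linarith) ?_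
      have := hOk.hK
      omega
    linarith
  have hx := hρ t ht
  have hx' := hρ _ ht'
  have hb₀2 : (0 : ℝ) < (b₀ : ℝ) ^ 2 := by positivity
  have hx0 : 0 < S.rho * S.x t := by linarith
  have hx0' : 0 < S.rho * S.x (t - S.l p) := by linarith
  have h4x : 1 / (4 * (S.rho * S.x t)) = 1 / (S.rho * S.x t) / 4 := by field_simp
  have h4x' : 1 / (4 * (S.rho * S.x (t - S.l p))) = 1 / (S.rho * S.x (t - S.l p)) / 4 := by
    field_simp
  have h8x' : 1 / (8 * (S.rho * S.x (t - S.l p))) = 1 / (S.rho * S.x (t - S.l p)) / 8 := by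
    field_simp
  have hi0 : 0 < 1 / (S.rho * S.x t) := by positivity
  have hi0' : 0 < 1 / (S.rho * S.x (t - S.l p)) := by positivity
  have hib : 1 / (S.rho * S.x t) < 1 / (b₀ : ℝ) ^ 2 :=
    one_div_lt_one_div_of_lt hb₀2 (by linarith)
  have hib' : 1 / (S.rho * S.x (t - S.l p)) < 1 / (b₀ : ℝ) ^ 2 :=
    one_div_lt_one_div_of_lt hb₀2 (by linarith)
  have hAtle : ∀ b₁ a₁ j, At S e₁ ν θ T b₁ a₁ t j →
      nd (fh S θ T t j - (a₁ : ℝ) / b₁) ≤ 1 / (S.rho * S.x t) / 32 := by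
    intro b₁ a₁ j h
    refine h.trans ?_
    have e1 : ν * e₁ ≤ 1 / 32 := by
      have := mul_le_mul hν1 he132 he1.le zero_le_one
      linarith
    have e2 : ν * e₁ / (S.rho * S.x t) = ν * e₁ * (1 / (S.rho * S.x t)) := by
      rw [mul_one_div]
    have e3 := mul_le_mul_of_nonneg_right e1 hi0.le
    rw [e2]
    linarith
  -- the prime number
  have hpp := (mem_Pr (pow_nonneg Par.P_pos.le _)).1 hp
  have hpb : ∀ c : ℕ, 1 ≤ c → c ≤ b₀ → Nat.Coprime c p := by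
    intro c hc1 hc2
    refine Nat.Coprime.symm ((Nat.Prime.coprime_iff_not_dvd hpp.2.2).2 fun hd => ?_)
    have e1 := Nat.le_of_dvd (by omega) hd
    have e2 : (p : ℝ) ≤ b₀ := by exact_mod_cast e1.trans hc2
    linarith [hpp.1]
  by_cases hE : ∃ j ∈ F t, nd (fh S θ T t j - (a : ℝ) / b) ≤ 1 / (4 * (S.rho * S.x t))
  · obtain ⟨j, hj, hnj⟩ := hE
    obtain ⟨b₁, a₁, hb₁, hb₁0, hAt₁⟩ := hFr j hj
    obtain ⟨k, hk⟩ := hRAS b₀ b₁ b a₁ a hb₁ hb₁0 hb hbb0 (by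
      have e1 := nd_tri ((a₁ : ℝ) / b₁) (fh S θ T t j) ((a : ℝ) / b)
      rw [nd_sub_comm ((a₁ : ℝ) / b₁) (fh S θ T t j)] at e1
      have e2 := hAtle b₁ a₁ j hAt₁
      rw [h4x] at hnj
      linarith)
    have hAt : At S e₁ ν θ T b a t j := by
      unfold At at hAt₁ ⊢
      have e1 : fh S θ T t j - (a : ℝ) / b = fh S θ T t j - (a₁ : ℝ) / b₁ + (k : ℝ) := by
        rw [← hk]
        ring
      rw [e1, nd_add_int]
      exact hAt₁
    obtain ⟨i, ⟨hi, hji⟩, -⟩ := hBij.1 j hj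
    have hni := h3 S e₀ e₁ ν T θ φ p b a a' t j i hOk hSK hX₃ he0 he032 he1 he132 hν hν1 hT ht ht'
      hp hb hmod hji hAt
    have hni' : nd (fh S θ T (t - S.l p) i - (a' : ℝ) / b) ≤
        1 / (4 * (S.rho * S.x (t - S.l p))) := by
      rw [h8x'] at hni
      rw [h4x']
      linarith
    rw [FA_one hj hnj fun i' hi' hn' => uniq hSep ht hx0 hi' hj hn' hnj,
      FA_one hi hni' fun i' hi' hn' => uniq hSep ht' hx0' hi' hi hn' hni']
    have hph := h2 S e₀ e₁ ν T θ φ p b a a' t j i hOk hSK hX₂ he0 (by linarith) he1 (by linarith)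
      hν hν1 hT ht ht' hp hb hbb0 hmod hji hAt
    have e1 : ee (ps S φ T b a t j) = -ee (ps S φ T b a t j + 1 / 2) := by
      rw [ee_add, ee_half]
      ring
    rw [e1, ← sub_eq_add_neg]
    refine (norm_ee_sub_le _ _).trans ?_
    rw [← sub_sub]
    have e2 : 2 * Real.pi * nd (ps S φ T b a' (t - S.l p) i - ps S φ T b a t j - 1 / 2) ≤
        2 * Real.pi * (ζ / 8) := mul_le_mul_of_nonneg_left hph (by positivity)
    have e3 : Real.pi * ζ ≤ 4 * ζ := mul_le_mul_of_nonneg_right Real.pi_le_four hζ.le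
    linarith
  · push Not at hE
    have hE' : ∀ i ∈ F (t - S.l p),
        ¬ nd (fh S θ T (t - S.l p) i - (a' : ℝ) / b) ≤ 1 / (4 * (S.rho * S.x (t - S.l p))) := by
      intro i hi hni
      obtain ⟨j, ⟨hj, hji⟩, -⟩ := hBij.2 i hi
      obtain ⟨b₁, a₁, hb₁, hb₁0, hAt₁⟩ := hFr j hj
      have hni₁ := h3 S e₀ e₁ ν T θ φ p b₁ a₁ (p * a₁) t j i hOk hSK hX₃ he0 he032 he1 he132 hν hν1
        hT ht ht' hp hb₁ (Nat.ModEq.refl _) hji hAt₁
      obtain ⟨k, hk⟩ := hRAS b₀ b₁ b (p * a₁) a' hb₁ hb₁0 hb hbb0 (by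
        have e1 := nd_tri (((p * a₁ : ℕ) : ℝ) / b₁) (fh S θ T (t - S.l p) i) ((a' : ℝ) / b)
        rw [nd_sub_comm (((p * a₁ : ℕ) : ℝ) / b₁) (fh S θ T (t - S.l p) i)] at e1
        rw [h8x'] at hni₁
        rw [h4x'] at hni
        linarith)
      obtain ⟨k', hk'⟩ := int_frac hb hb₁ (hpb b hb hbb0) (hpb b₁ hb₁ hb₁0) hmod hk
      have e1 : fh S θ T t j - (a : ℝ) / b = fh S θ T t j - (a₁ : ℝ) / b₁ + (k' : ℝ) := by
        rw [← hk']
        ring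
      have e2 := hAtle b₁ a₁ j hAt₁
      have e3 := hE j hj
      rw [e1, nd_add_int, h4x] at e3
      linarith
    rw [FA_zero hE', FA_zero fun i hi => not_le.2 (hE i hi)]
    simpa using hζ.le

end Pool.Agent.H78.GX.H35.G3
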